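import Mathlib

/-!
# Gaussian integrals for MP_c048c3_co
-/

namespace C048

open MeasureTheory Set Filter Topology

theorem g91_intOn {b : ℝ} (hb : 0 < b) (k : ℕ) :
    IntegrableOn (fun x : ℝ => x ^ k * Real.exp (-b * x ^ 2)) (Ioi 0) := by
  have h := integrableOn_rpow_mul_exp_neg_mul_sq hb (s := (k : ℝ)) (by
    have : (0 : ℝ) ≤ k := Nat.cast_nonneg k
    linarith)
  refine h.congr_fun (fun x _ => ?_) measurableSet_Ioi
  simp only [Real.rpow_natCast]

theorem g91_six {b : ℝ} (hb : 0 < b) :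
    ∫ x in Ioi (0 : ℝ), x ^ 6 * Real.exp (-b * x ^ 2) =
      15 * Real.sqrt Real.pi / (16 * b ^ 3 * Real.sqrt b) := by
  have h := integral_rpow_mul_exp_neg_mul_rpow (p := 2) (q := 6) (b := b) (by norm_num)
    (by norm_num) hb
  have h1 : ∫ x in Ioi (0 : ℝ), x ^ 6 * Real.exp (-b * x ^ 2) =
      ∫ x in Ioi (0 : ℝ), x ^ (6 : ℝ) * Real.exp (-b * x ^ (2 : ℝ)) := by
    refine setIntegral_congr_fun measurableSet_Ioi fun x _ => ?_
    have e1 : x ^ (6 : ℝ) = x ^ 6 := by exact_mod_cast Real.rpow_natCast x 6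
    simp only [e1, Real.rpow_two]
  have h2 : Real.Gamma ((6 + 1) / 2) = 15 / 8 * Real.sqrt Real.pi := by
    rw [show ((6 : ℝ) + 1) / 2 = 5 / 2 + 1 by norm_num, Real.Gamma_add_one (by norm_num),
      show (5 : ℝ) / 2 = 3 / 2 + 1 by norm_num, Real.Gamma_add_one (by norm_num),
      show (3 : ℝ) / 2 = 1 / 2 + 1 by norm_num, Real.Gamma_add_one (by norm_num),
      Real.Gamma_one_half_eq]
    ring
  have h3 : b ^ (-(6 + 1) / 2 : ℝ) = 1 / (b ^ 3 * Real.sqrt b) := by
    rw [show (-(6 + 1) / 2 : ℝ) = -((3 : ℕ) + 1 / 2 : ℝ) by norm_num, Real.rpow_neg hb.le,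
      Real.rpow_add hb, Real.rpow_natCast, ← Real.sqrt_eq_rpow]
    simp
  rw [h1, h, h2, h3]
  field_simp
  norm_num

theorem g91_four {b : ℝ} (hb : 0 < b) :
    ∫ x in Ioi (0 : ℝ), x ^ 4 * Real.exp (-b * x ^ 2) =
      3 * Real.sqrt Real.pi / (8 * b ^ 2 * Real.sqrt b) := by
  have h := integral_rpow_mul_exp_neg_mul_rpow (p := 2) (q := 4) (b := b) (by norm_num)
    (by norm_num) hb
  have h1 : ∫ x in Ioi (0 : ℝ), x ^ 4 * Real.exp (-b * x ^ 2) =
      ∫ x in Ioi (0 : ℝ), x ^ (4 : ℝ) * Real.exp (-b * x ^ (2 : ℝ)) := by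
    refine setIntegral_congr_fun measurableSet_Ioi fun x _ => ?_
    have e1 : x ^ (4 : ℝ) = x ^ 4 := by exact_mod_cast Real.rpow_natCast x 4
    simp only [e1, Real.rpow_two]
  have h2 : Real.Gamma ((4 + 1) / 2) = 3 / 4 * Real.sqrt Real.pi := by
    rw [show ((4 : ℝ) + 1) / 2 = 3 / 2 + 1 by norm_num, Real.Gamma_add_one (by norm_num),
      show (3 : ℝ) / 2 = 1 / 2 + 1 by norm_num, Real.Gamma_add_one (by norm_num),
      Real.Gamma_one_half_eq]
    ring
  have h3 : b ^ (-(4 + 1) / 2 : ℝ) = 1 / (b ^ 2 * Real.sqrt b) := by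
    rw [show (-(4 + 1) / 2 : ℝ) = -((2 : ℕ) + 1 / 2 : ℝ) by norm_num, Real.rpow_neg hb.le,
      Real.rpow_add hb, Real.rpow_natCast, ← Real.sqrt_eq_rpow]
    simp
  rw [h1, h, h2, h3]
  field_simp
  norm_num

/-- cosine transform of the Gaussian over the line -/
theorem g91_cos {b : ℝ} (hb : 0 < b) (t : ℝ) :
    ∫ x : ℝ, Real.cos (t * x) * Real.exp (-b * x ^ 2) =
      Real.sqrt Real.pi / Real.sqrt b * Real.exp (-t ^ 2 / (4 * b)) := by
  have h := fourierIntegral_gaussian (b := (b : ℂ)) (by simpa using hb) (t : ℂ)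
  have h1 : ∀ x : ℝ, (Complex.exp (Complex.I * t * x) * Complex.exp (-b * x ^ 2)).re =
      Real.cos (t * x) * Real.exp (-b * x ^ 2) := by
    intro x
    have e1 : Complex.exp (-b * x ^ 2) = ((Real.exp (-b * x ^ 2) : ℝ) : ℂ) := by
      push_cast
      rfl
    rw [e1, Complex.re_mul_ofReal, show Complex.I * t * x = ((t * x : ℝ) : ℂ) * Complex.I by
      push_cast; ring, Complex.exp_ofReal_mul_I_re]
  have hint : Integrable (fun x : ℝ => Complex.exp (Complex.I * t * x) *
      Complex.exp (-b * x ^ 2)) := by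
    have := integrable_cexp_quadratic (b := (b : ℂ)) (by simpa using hb) (Complex.I * t) 0
    refine this.congr (Filter.Eventually.of_forall fun x => ?_)
    simp only
    rw [← Complex.exp_add]
    congr 1
    ring
  have h2 : ∫ x : ℝ, Real.cos (t * x) * Real.exp (-b * x ^ 2) =
      (∫ x : ℝ, Complex.exp (Complex.I * t * x) * Complex.exp (-b * x ^ 2)).re := by
    have := integral_re (𝕜 := ℂ) hint
    rw [show (∫ x : ℝ, Complex.exp (Complex.I * t * x) * Complex.exp (-b * x ^ 2)).re =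
      RCLike.re (∫ x : ℝ, Complex.exp (Complex.I * t * x) * Complex.exp (-b * x ^ 2)) from rfl,
      ← this]
    refine integral_congr_ae (Filter.Eventually.of_forall fun x => ?_)
    exact (h1 x).symm
  rw [h2, h]
  have h3 : ((Real.pi : ℂ) / b) ^ (1 / 2 : ℂ) = ((Real.sqrt Real.pi / Real.sqrt b : ℝ) : ℂ) := by
    rw [← Real.sqrt_div Real.pi_pos.le, Real.sqrt_eq_rpow, Complex.ofReal_cpow (by positivity)]
    push_cast
    rfl
  have h4 : Complex.exp (-(t : ℂ) ^ 2 / (4 * b)) = ((Real.exp (-t ^ 2 / (4 * b)) : ℝ) : ℂ) := by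
    push_cast
    rfl
  rw [h3, h4, ← Complex.ofReal_mul, Complex.ofReal_re]

theorem g91_int_line {b : ℝ} (hb : 0 < b) (k : ℕ) :
    Integrable (fun x : ℝ => x ^ k * Real.exp (-b * x ^ 2)) := by
  have h := integrable_rpow_mul_exp_neg_mul_sq hb (s := (k : ℝ)) (by
    have : (0 : ℝ) ≤ k := Nat.cast_nonneg k
    linarith)
  refine h.congr (Filter.Eventually.of_forall fun x => ?_)
  simp only [Real.rpow_natCast]

/-- the sine moment -/
theorem g91_sin {b : ℝ} (hb : 0 < b) (t : ℝ) :
    ∫ x in Ioi (0 : ℝ), x * Real.sin (t * x) * Real.exp (-b * x ^ 2) =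
      t / (4 * b) * (Real.sqrt Real.pi / Real.sqrt b * Real.exp (-t ^ 2 / (4 * b))) := by
  have hev : ∫ x : ℝ, |x| * Real.sin (t * |x|) * Real.exp (-b * |x| ^ 2) =
      2 * ∫ x in Ioi (0 : ℝ), x * Real.sin (t * x) * Real.exp (-b * x ^ 2) :=
    integral_comp_abs (f := fun x => x * Real.sin (t * x) * Real.exp (-b * x ^ 2))
  have hev2 : ∀ x : ℝ, |x| * Real.sin (t * |x|) * Real.exp (-b * |x| ^ 2) =
      x * Real.sin (t * x) * Real.exp (-b * x ^ 2) := by
    intro x
    rcases le_total 0 x with h | h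
    · rw [abs_of_nonneg h]
    · rw [abs_of_nonpos h, mul_neg, Real.sin_neg]
      ring_nf
  simp only [hev2] at hev
  have hi1 : Integrable (fun x : ℝ => x * Real.sin (t * x) * Real.exp (-b * x ^ 2)) := by
    have h1 := g91_int_line hb 1
    refine h1.norm.mono' (by fun_prop) (Filter.Eventually.of_forall fun x => ?_)
    simp only [pow_one, norm_mul, Real.norm_eq_abs]
    have h2 := Real.abs_sin_le_one (t * x)
    have h3 : 0 ≤ |x| * |Real.exp (-b * x ^ 2)| := by positivity
    nlinarith [h3]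
  have hi2 : Integrable (fun x : ℝ => Real.cos (t * x) * Real.exp (-b * x ^ 2)) := by
    have h1 := g91_int_line hb 0
    refine h1.norm.mono' (by fun_prop) (Filter.Eventually.of_forall fun x => ?_)
    simp only [pow_zero, one_mul, norm_mul, Real.norm_eq_abs]
    have h2 := Real.abs_cos_le_one (t * x)
    have h3 : 0 ≤ |Real.exp (-b * x ^ 2)| := by positivity
    nlinarith [h3]
  have hder : ∀ x : ℝ, HasDerivAt (fun x : ℝ => -(Real.exp (-b * x ^ 2) * Real.sin (t * x)) / (2 * b))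
      (x * Real.sin (t * x) * Real.exp (-b * x ^ 2) -
        t / (2 * b) * (Real.cos (t * x) * Real.exp (-b * x ^ 2))) x := by
    intro x
    have h1 : HasDerivAt (fun x : ℝ => Real.exp (-b * x ^ 2))
        (Real.exp (-b * x ^ 2) * (-b * (2 * x))) x := by
      have := ((hasDerivAt_pow 2 x).const_mul (-b)).exp
      simpa using this
    have h2 : HasDerivAt (fun x : ℝ => Real.sin (t * x)) (Real.cos (t * x) * t) x := by
      have := ((hasDerivAt_id x).const_mul t).sin
      simpa using this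
    have h3 := ((h1.mul h2).neg).div_const (2 * b)
    refine h3.congr_deriv ?_
    have := hb.ne'
    field_simp
    ring
  have hlim : ∀ l : Filter ℝ, Tendsto (fun x : ℝ => x ^ 2) l atTop →
      Tendsto (fun x : ℝ => -(Real.exp (-b * x ^ 2) * Real.sin (t * x)) / (2 * b)) l (𝓝 0) := by
    intro l hl
    have h1 : Tendsto (fun x : ℝ => Real.exp (-b * x ^ 2)) l (𝓝 0) := by
      have h2 : Tendsto (fun x : ℝ => -b * x ^ 2) l atBot := by
        have := hl.const_mul_atTop hb
        have h3 := tendsto_neg_atTop_atBot.comp this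
        refine h3.congr fun x => ?_
        simp
      exact Real.tendsto_exp_atBot.comp h2
    have h2 : Tendsto (fun x : ℝ => Real.exp (-b * x ^ 2) / (2 * b)) l (𝓝 0) := by
      have := h1.div_const (2 * b)
      simpa using this
    refine squeeze_zero_norm (fun x => ?_) h2
    rw [Real.norm_eq_abs, abs_div, abs_neg, abs_mul, abs_of_pos (Real.exp_pos _),
      abs_of_pos (by positivity : (0 : ℝ) < 2 * b)]
    have h3 := Real.abs_sin_le_one (t * x)
    have h4 := Real.exp_pos (-b * x ^ 2)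
    gcongr
    nlinarith
  have hbot : Tendsto (fun x : ℝ => x ^ 2) atBot atTop := by
    have := (tendsto_pow_atTop (α := ℝ) (n := 2) (by norm_num)).comp
      (tendsto_abs_atBot_atTop (G := ℝ))
    refine this.congr fun x => ?_
    simp
  have htop : Tendsto (fun x : ℝ => x ^ 2) atTop atTop := tendsto_pow_atTop (by norm_num)
  have hparts := integral_of_hasDerivAt_of_tendsto hder
    (hi1.sub (hi2.const_mul (t / (2 * b)))) (hlim _ hbot) (hlim _ htop)
  rw [integral_sub hi1 (hi2.const_mul _), integral_const_mul, g91_cos hb, sub_self,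
    sub_eq_zero] at hparts
  rw [hparts] at hev
  have : ∫ x in Ioi (0 : ℝ), x * Real.sin (t * x) * Real.exp (-b * x ^ 2) =
      (1 / 2) * (t / (2 * b) * (Real.sqrt Real.pi / Real.sqrt b *
        Real.exp (-t ^ 2 / (4 * b)))) := by linarith
  rw [this]
  field_simp
  ring

end C048
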