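import Pool.Agent.helper70.KU.Defs
import Pool.Agent.helper91.KU.Gauss

/-!
# Module A3: the analysis of the central range
-/

namespace C048

open MeasureTheory Set Filter Topology

/-- `n^k e^{-cn}` is decreasing for `n ≥ 150` if `k ≤ 150 c`. -/
theorem a91_decay (n : ℝ) (hn : 150 ≤ n) (k : ℕ) (c : ℝ) (hk : (k : ℝ) ≤ 150 * c) :
    n ^ k * Real.exp (-(c * n)) ≤ 150 ^ k * Real.exp (-(150 * c)) := by
  have h1 : n / 150 ≤ Real.exp (n / 150 - 1) := by
    have := Real.add_one_le_exp (n / 150 - 1)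
    linarith
  have h2 : (n / 150) ^ k ≤ Real.exp (n / 150 - 1) ^ k := by gcongr
  have h3 : Real.exp (n / 150 - 1) ^ k ≤ Real.exp (150 * c * (n / 150 - 1)) := by
    rw [← Real.exp_nat_mul, Real.exp_le_exp]
    have : 0 ≤ n / 150 - 1 := by linarith [div_le_div_of_nonneg_right hn (by norm_num : (0:ℝ) ≤ 150)]
    gcongr
  have h4 : n ^ k = 150 ^ k * (n / 150) ^ k := by
    rw [← mul_pow]
    congr 1
    ring
  calc n ^ k * Real.exp (-(c * n)) = 150 ^ k * (n / 150) ^ k * Real.exp (-(c * n)) := by rw [h4]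
    _ ≤ 150 ^ k * Real.exp (150 * c * (n / 150 - 1)) * Real.exp (-(c * n)) := by
      gcongr
      exact h2.trans h3
    _ = 150 ^ k * Real.exp (-(150 * c)) := by
      rw [mul_assoc, ← Real.exp_add]
      congr 2
      ring

theorem a91_sq_int (c : ℝ) (hc : 0 ≤ c) :
    IntegrableOn (fun θ : ℝ => (Ioc 0 c).indicator (fun θ : ℝ => θ ^ 2) θ) (Ioi 0) ∧
    ∫ θ in Ioi (0 : ℝ), (Ioc 0 c).indicator (fun θ : ℝ => θ ^ 2) θ = c ^ 3 / 3 := by
  constructor
  · have h : IntegrableOn (fun θ : ℝ => θ ^ 2) (Ioc 0 c) :=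
      (by fun_prop : Continuous fun θ : ℝ => θ ^ 2).integrableOn_Ioc
    exact (h.integrable_indicator measurableSet_Ioc).integrableOn
  · rw [setIntegral_indicator measurableSet_Ioc]
    have h : Ioi (0 : ℝ) ∩ Ioc 0 c = Ioc 0 c := by
      ext θ
      simp only [mem_inter_iff, mem_Ioi, mem_Ioc]
      tauto
    rw [h, ← intervalIntegral.integral_of_le hc, integral_pow]
    norm_num

/-- the two sines -/
theorem a91_sines (x θ : ℝ) (hx : 0 ≤ x) (hθ : 0 ≤ θ) :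
    |2 * Real.sin (x * θ) * Real.sin (θ / 2)| ≤ x * θ ^ 2 := by
  rw [abs_mul, abs_mul, abs_two]
  have h1 : |Real.sin (x * θ)| ≤ x * θ :=
    Real.abs_sin_le_abs.trans (abs_of_nonneg (mul_nonneg hx hθ)).le
  have h2 : |Real.sin (θ / 2)| ≤ θ / 2 :=
    Real.abs_sin_le_abs.trans (abs_of_nonneg (by positivity)).le
  calc 2 * |Real.sin (x * θ)| * |Real.sin (θ / 2)| ≤ 2 * (x * θ) * (θ / 2) := by gcongr
    _ = x * θ ^ 2 := by ring

/-- the central part -/
theorem a91_central (b c x θ q : ℝ) (hx : 0 ≤ x) (hc : 0 ≤ c) (hθ : 0 < θ)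
    (h1 : Real.exp (-(b * θ ^ 2 + c * θ ^ 4)) ≤ q) (h2 : |q| ≤ Real.exp (-(b * θ ^ 2))) :
    θ * Real.sin (x * θ) * Real.exp (-b * θ ^ 2) -
      x * (c * (θ ^ 6 * Real.exp (-b * θ ^ 2)) + 1 / 16 * (θ ^ 4 * Real.exp (-b * θ ^ 2))) ≤
      q * (2 * Real.sin (x * θ) * Real.sin (θ / 2)) := by
  have hG : Real.exp (-b * θ ^ 2) = Real.exp (-(b * θ ^ 2)) := by ring_nf
  rw [hG]
  set G := Real.exp (-(b * θ ^ 2)) with hGd
  have hG0 : 0 < G := Real.exp_pos _
  have hq1 : q ≤ G := (le_abs_self q).trans h2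
  have hq2 : G * (1 - c * θ ^ 4) ≤ q := by
    refine le_trans ?_ h1
    rw [neg_add, Real.exp_add]
    have := Real.add_one_le_exp (-(c * θ ^ 4))
    gcongr
    linarith
  have h3 : |q - G| ≤ G * (c * θ ^ 4) := by
    rw [abs_le]
    constructor
    · linarith
    · have : 0 ≤ G * (c * θ ^ 4) := by positivity
      linarith
  have h4 : |(q - G) * (2 * Real.sin (x * θ) * Real.sin (θ / 2))| ≤ G * (c * θ ^ 4) * (x * θ ^ 2) := by
    rw [abs_mul]
    have := a91_sines x θ hx hθ.le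
    gcongr
  have h5 : |Real.sin (x * θ)| ≤ x * θ :=
    Real.abs_sin_le_abs.trans (abs_of_nonneg (mul_nonneg hx hθ.le)).le
  have h6 : |2 * Real.sin (θ / 2) - θ| ≤ θ ^ 3 / 16 := by
    have e1 := Real.sin_gt_sub_cube (x := θ / 2) (by positivity)
    have e3 : 0 ≤ θ ^ 3 := by positivity
    have e2 := Real.sin_le (x := θ / 2) (by positivity)
    rw [abs_le]
    constructor
    · nlinarith
    · have : 0 ≤ θ ^ 3 / 16 := by positivity
      linarith
  have h7 : |G * (Real.sin (x * θ) * (2 * Real.sin (θ / 2) - θ))| ≤ G * ((x * θ) * (θ ^ 3 / 16)) := by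
    rw [abs_mul, abs_mul, abs_of_pos hG0]
    gcongr
  have h8 := (abs_le.1 h4).1
  have h9 := (abs_le.1 h7).1
  nlinarith [h8, h9]

theorem a91_exp3 : (0.0557 : ℝ) ≤ Real.exp (-2.88) := by
  have h1 : Real.exp (-2.88) = Real.exp (-3) * Real.exp 0.12 := by
    rw [← Real.exp_add]
    norm_num
  have h2 : (1.12 : ℝ) ≤ Real.exp 0.12 := by
    have := Real.add_one_le_exp (0.12 : ℝ)
    linarith
  have h3 : (0.0497 : ℝ) ≤ Real.exp (-3) * 0.999 := by
    rw [Real.exp_neg, show (3 : ℝ) = ((3 : ℕ) : ℝ) * 1 by norm_num, Real.exp_nat_mul]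
    have h4 := Real.exp_one_lt_d9
    have h5 : Real.exp 1 ^ 3 ≤ 2.7182818286 ^ 3 := by
      gcongr
    have h6 : 0 < Real.exp 1 ^ 3 := by positivity
    rw [← div_eq_inv_mul, le_div_iff₀ h6]
    calc (0.0497 : ℝ) * Real.exp 1 ^ 3 ≤ 0.0497 * 2.7182818286 ^ 3 := by gcongr
      _ ≤ 0.999 := by norm_num
  rw [h1]
  have h7 : (0.0497 : ℝ) / 0.999 ≤ Real.exp (-3) := by
    rw [div_le_iff₀ (by norm_num)]
    exact h3
  calc (0.0557 : ℝ) ≤ 0.0497 / 0.999 * 1.12 := by norm_num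
    _ ≤ Real.exp (-3) * Real.exp 0.12 := by gcongr

theorem a91_exp_neg_nat (k : ℕ) : Real.exp (-(k : ℝ)) ≤ (1 / 2.7182818283) ^ k := by
  have h1 := Real.exp_one_gt_d9
  rw [Real.exp_neg, show (k : ℝ) = (k : ℝ) * 1 by ring, Real.exp_nat_mul, one_div, inv_pow]
  gcongr

/-- the final numerical inequality -/
theorem a91_num (n : ℝ) (hn : 150 ≤ n) (b A t : ℝ) (hb : b = (58 * n ^ 3 + 10 * n ^ 2) / 24)
    (hA : A = (1494 * n ^ 5 + 592 * n ^ 4 + 58 * n ^ 3) / 1920 + 512 * n ^ 4)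
    (ht : t ≤ 2.88) :
    A * (15 * Real.sqrt Real.pi / (16 * b ^ 3 * Real.sqrt b)) +
      1 / 16 * (3 * Real.sqrt Real.pi / (8 * b ^ 2 * Real.sqrt b)) +
      Real.exp (-(0.11 * n)) * ((4 / n) ^ 3 / 3) + Real.exp (-(0.28 * n)) * (Real.pi ^ 3 / 3) <
      1 / (4 * b) * (Real.sqrt Real.pi / Real.sqrt b * Real.exp (-t)) := by
  have hn0 : (0 : ℝ) < n := by linarith
  have hb1 : 58 * n ^ 3 / 24 ≤ b := by
    rw [hb]
    have : 0 ≤ n ^ 2 := by positivity
    linarith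
  have hb2 : b ≤ 2.4195 * n ^ 3 := by
    rw [hb]
    have : 150 * n ^ 2 ≤ n ^ 3 := by nlinarith [sq_nonneg n]
    linarith
  have hb0 : 0 < b := lt_of_lt_of_le (by positivity) hb1
  have hs0 : 0 < Real.sqrt b := Real.sqrt_pos.2 hb0
  have hsq : Real.sqrt b ^ 2 = b := Real.sq_sqrt hb0.le
  have hp0 : 0 < Real.sqrt Real.pi := Real.sqrt_pos.2 Real.pi_pos
  have hpi : (1.7724 : ℝ) ≤ Real.sqrt Real.pi := by
    apply Real.le_sqrt_of_sq_le
    have := Real.pi_gt_d6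
    norm_num
    linarith
  -- P1
  have hP1 : A * 15 / (4 * b ^ 2) ≤ 0.0181 := by
    rw [div_le_iff₀ (by positivity)]
    have e1 : (58 * n ^ 3 / 24) ^ 2 ≤ b ^ 2 := by gcongr
    have e2 : 150 * n ^ 5 ≤ n ^ 6 := by
      have : 0 ≤ n ^ 5 := by positivity
      nlinarith
    have e3 : 150 * n ^ 4 ≤ n ^ 5 := by
      have : 0 ≤ n ^ 4 := by positivity
      nlinarith
    have e4 : 150 * n ^ 3 ≤ n ^ 4 := by
      have : 0 ≤ n ^ 3 := by positivity
      nlinarith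
    rw [hA]
    nlinarith
  -- P2
  have hP2 : 3 / (32 * b) ≤ 0.00001 := by
    rw [div_le_iff₀ (by positivity)]
    have : (150 : ℝ) ^ 3 ≤ n ^ 3 := by gcongr
    linarith
  -- P3
  have hP3 : 4 * b * Real.sqrt b * Real.exp (-(0.11 * n)) * ((4 / n) ^ 3 / 3) ≤
      0.0228 * Real.sqrt Real.pi := by
    have e1 : n ^ 3 * Real.exp (-(0.22 * n)) ≤ 150 ^ 3 * Real.exp (-(150 * 0.22)) :=
      a91_decay n hn 3 0.22 (by norm_num)
    have e2 : Real.exp (-(150 * 0.22)) ≤ 4.66e-15 := by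
      have := a91_exp_neg_nat 33
      rw [show (-(150 * 0.22) : ℝ) = -((33 : ℕ) : ℝ) by norm_num]
      refine this.trans (by norm_num)
    have e3 : (Real.sqrt b * Real.exp (-(0.11 * n))) ^ 2 ≤ (1.952e-4) ^ 2 := by
      rw [mul_pow, hsq, ← Real.exp_nat_mul]
      have : ((2 : ℕ) : ℝ) * -(0.11 * n) = -(0.22 * n) := by push_cast; ring
      rw [this]
      calc b * Real.exp (-(0.22 * n)) ≤ 2.4195 * n ^ 3 * Real.exp (-(0.22 * n)) := by gcongr
        _ = 2.4195 * (n ^ 3 * Real.exp (-(0.22 * n))) := by ring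
        _ ≤ 2.4195 * (150 ^ 3 * 4.66e-15) :=
          mul_le_mul_of_nonneg_left (e1.trans (mul_le_mul_of_nonneg_left e2 (by norm_num)))
            (by norm_num)
        _ ≤ _ := by norm_num
    have e4 : Real.sqrt b * Real.exp (-(0.11 * n)) ≤ 1.952e-4 :=
      le_of_sq_le_sq e3 (by norm_num)
    have e5 : 4 * b * ((4 / n) ^ 3 / 3) ≤ 206.464 := by
      rw [div_pow]
      have : 4 * b * (4 ^ 3 / n ^ 3 / 3) = 4 * 64 * b / 3 / n ^ 3 := by
        field_simp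
        ring
      rw [this, div_le_iff₀ (by positivity)]
      linarith
    calc 4 * b * Real.sqrt b * Real.exp (-(0.11 * n)) * ((4 / n) ^ 3 / 3)
        = (4 * b * ((4 / n) ^ 3 / 3)) * (Real.sqrt b * Real.exp (-(0.11 * n))) := by ring
      _ ≤ 206.464 * 1.952e-4 := by gcongr
      _ ≤ 0.0228 * 1.7724 := by norm_num
      _ ≤ _ := by gcongr
  -- P4
  have hP4 : 4 * b * Real.sqrt b * Real.exp (-(0.28 * n)) * (Real.pi ^ 3 / 3) ≤
      0.0001 * Real.sqrt Real.pi := by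
    have e1 : n ^ 9 * Real.exp (-(0.56 * n)) ≤ 150 ^ 9 * Real.exp (-(150 * 0.56)) :=
      a91_decay n hn 9 0.56 (by norm_num)
    have e2 : Real.exp (-(150 * 0.56)) ≤ 1e-36 := by
      have := a91_exp_neg_nat 84
      rw [show (-(150 * 0.56) : ℝ) = -((84 : ℕ) : ℝ) by norm_num]
      refine this.trans (by norm_num)
    have e3 : (b * Real.sqrt b * Real.exp (-(0.28 * n))) ^ 2 ≤ (3e-8) ^ 2 := by
      have : (b * Real.sqrt b * Real.exp (-(0.28 * n))) ^ 2 =
          b ^ 3 * Real.exp (-(0.56 * n)) := by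
        rw [mul_pow, mul_pow, hsq, ← Real.exp_nat_mul]
        have : ((2 : ℕ) : ℝ) * -(0.28 * n) = -(0.56 * n) := by push_cast; ring
        rw [this]
        ring
      rw [this]
      calc b ^ 3 * Real.exp (-(0.56 * n)) ≤ (2.4195 * n ^ 3) ^ 3 * Real.exp (-(0.56 * n)) := by
            gcongr
        _ = 2.4195 ^ 3 * (n ^ 9 * Real.exp (-(0.56 * n))) := by ring
        _ ≤ 2.4195 ^ 3 * (150 ^ 9 * 1e-36) :=
          mul_le_mul_of_nonneg_left (e1.trans (mul_le_mul_of_nonneg_left e2 (by norm_num)))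
            (by norm_num)
        _ ≤ _ := by norm_num
    have e4 : b * Real.sqrt b * Real.exp (-(0.28 * n)) ≤ 3e-8 := le_of_sq_le_sq e3 (by norm_num)
    have e5 : Real.pi ^ 3 ≤ 32 := by
      have := Real.pi_lt_d2
      calc Real.pi ^ 3 ≤ 3.15 ^ 3 := by gcongr
        _ ≤ 32 := by norm_num
    calc 4 * b * Real.sqrt b * Real.exp (-(0.28 * n)) * (Real.pi ^ 3 / 3)
        = 4 * (b * Real.sqrt b * Real.exp (-(0.28 * n))) * (Real.pi ^ 3 / 3) := by ring
      _ ≤ 4 * 3e-8 * (32 / 3) := by gcongr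
      _ ≤ 0.0001 * 1.7724 := by norm_num
      _ ≤ _ := by gcongr
  have hE : (0.0557 : ℝ) ≤ Real.exp (-t) :=
    a91_exp3.trans (Real.exp_le_exp.2 (by linarith))
  -- combine: multiply by 4 b sqrt b
  have hM : 0 < 4 * b * Real.sqrt b := by positivity
  rw [← mul_lt_mul_iff_right₀ hM]
  have r1 : 4 * b * Real.sqrt b * (1 / (4 * b) * (Real.sqrt Real.pi / Real.sqrt b * Real.exp (-t)))
      = Real.sqrt Real.pi * Real.exp (-t) := by
    field_simp
  have r2 : 4 * b * Real.sqrt b * (A * (15 * Real.sqrt Real.pi / (16 * b ^ 3 * Real.sqrt b)) +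
      1 / 16 * (3 * Real.sqrt Real.pi / (8 * b ^ 2 * Real.sqrt b)) +
      Real.exp (-(0.11 * n)) * ((4 / n) ^ 3 / 3) + Real.exp (-(0.28 * n)) * (Real.pi ^ 3 / 3))
      = Real.sqrt Real.pi * (A * 15 / (4 * b ^ 2)) + Real.sqrt Real.pi * (3 / (32 * b)) +
      4 * b * Real.sqrt b * Real.exp (-(0.11 * n)) * ((4 / n) ^ 3 / 3) +
      4 * b * Real.sqrt b * Real.exp (-(0.28 * n)) * (Real.pi ^ 3 / 3) := by
    have e1 : 4 * b * Real.sqrt b * (A * (15 * Real.sqrt Real.pi / (16 * b ^ 3 * Real.sqrt b))) =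
        Real.sqrt Real.pi * (A * 15 / (4 * b ^ 2)) := by
      field_simp
      ring
    have e2 : 4 * b * Real.sqrt b * (1 / 16 * (3 * Real.sqrt Real.pi / (8 * b ^ 2 * Real.sqrt b)))
        = Real.sqrt Real.pi * (3 / (32 * b)) := by
      field_simp
      ring
    rw [mul_add, mul_add, mul_add, e1, e2]
    ring
  rw [r1, r2]
  have r3 : Real.sqrt Real.pi * (A * 15 / (4 * b ^ 2)) ≤ Real.sqrt Real.pi * 0.0181 := by gcongr
  have r4 : Real.sqrt Real.pi * (3 / (32 * b)) ≤ Real.sqrt Real.pi * 0.00001 := by gcongr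
  have r5 : Real.sqrt Real.pi * 0.0557 ≤ Real.sqrt Real.pi * Real.exp (-t) := by gcongr
  nlinarith

theorem partA_analysis (n : ℕ) (hn : 150 ≤ n) (q : ℝ → ℝ) (hq : Continuous q) (x : ℝ)
    (hx0 : 1 / 2 ≤ x) (hx : x ^ 2 ≤ 5.76 * (S2 n / 12))
    (h1 : ∀ θ : ℝ, 0 ≤ θ → 4 * n * θ ≤ 1 →
      Real.exp (-(S2 n / 24 * θ ^ 2 + S4 n / 1920 * θ ^ 4)) ≤ q θ)
    (h2 : ∀ θ : ℝ, 0 ≤ θ → 4 * n * θ ≤ Real.pi → |q θ| ≤ Real.exp (-(S2 n / 24 * θ ^ 2)))
    (h3 : ∀ θ : ℝ, Real.pi / 4 ≤ n * θ → n * θ ≤ 2 → |q θ| ≤ Real.exp (-(0.3 * n)))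
    (h4 : ∀ θ : ℝ, 2 ≤ n * θ → n * θ ≤ 4 → |q θ| ≤ Real.exp (-(0.11 * n)))
    (h5 : ∀ θ : ℝ, 4 ≤ n * θ → θ ≤ Real.pi → |q θ| ≤ Real.exp (-(0.28 * n))) :
    0 < ∫ θ in (0:ℝ)..Real.pi, q θ * (2 * Real.sin (x * θ) * Real.sin (θ / 2)) := by
  have hn' : (150 : ℝ) ≤ n := by exact_mod_cast hn
  have hn0 : (0 : ℝ) < n := by linarith
  set b : ℝ := S2 n / 24 with hb
  set c : ℝ := S4 n / 1920 with hc
  set A : ℝ := c + 512 * (n : ℝ) ^ 4 with hA
  have hb' : b = (58 * (n : ℝ) ^ 3 + 10 * (n : ℝ) ^ 2) / 24 := by rw [hb, S2]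
  have hc' : c = (1494 * (n : ℝ) ^ 5 + 592 * (n : ℝ) ^ 4 + 58 * (n : ℝ) ^ 3) / 1920 := by
    rw [hc, S4]
  have hb0 : 0 < b := by rw [hb']; positivity
  have hc0 : 0 < c := by rw [hc']; positivity
  have hx00 : 0 < x := by linarith
  set F : ℝ → ℝ := fun θ => q θ * (2 * Real.sin (x * θ) * Real.sin (θ / 2)) with hF
  have hFc : Continuous F := by
    rw [hF]
    fun_prop
  -- the lower bound
  set g1 : ℝ → ℝ := fun θ => θ * Real.sin (x * θ) * Real.exp (-b * θ ^ 2) with hg1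
  set g6 : ℝ → ℝ := fun θ => θ ^ 6 * Real.exp (-b * θ ^ 2) with hg6
  set g4 : ℝ → ℝ := fun θ => θ ^ 4 * Real.exp (-b * θ ^ 2) with hg4
  set k1 : ℝ → ℝ := fun θ => (Ioc 0 (4 / (n : ℝ))).indicator (fun θ : ℝ => θ ^ 2) θ with hk1
  set k2 : ℝ → ℝ := fun θ => (Ioc 0 Real.pi).indicator (fun θ : ℝ => θ ^ 2) θ with hk2
  set e1 := Real.exp (-(0.11 * (n : ℝ))) with he1
  set e2 := Real.exp (-(0.28 * (n : ℝ))) with he2
  have he10 : 0 < e1 := Real.exp_pos _
  have he20 : 0 < e2 := Real.exp_pos _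
  have hk10 : ∀ θ, 0 ≤ k1 θ := fun θ => indicator_nonneg (fun _ _ => sq_nonneg _) _
  have hk20 : ∀ θ, 0 ≤ k2 θ := fun θ => indicator_nonneg (fun _ _ => sq_nonneg _) _
  have hlow : ∀ θ ∈ Ioi (0 : ℝ), g1 θ - x * (A * g6 θ + 1 / 16 * g4 θ + e1 * k1 θ + e2 * k2 θ) ≤
      (Ioc 0 Real.pi).indicator F θ := by
    intro θ hθ
    have hθ0 : 0 < θ := hθ
    have hg60 : 0 ≤ g6 θ := by simp only [hg6]; positivity
    have hg40 : 0 ≤ g4 θ := by simp only [hg4]; positivity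
    have hk1θ := hk10 θ
    have hk2θ := hk20 θ
    have hp : Real.pi ≤ 4 := Real.pi_le_four
    have hp3 := Real.pi_gt_three
    by_cases hc1 : 4 * n * θ ≤ 1
    · -- central
      have hθ1 : θ ≤ 1 := by nlinarith
      have hθp : θ ∈ Ioc 0 Real.pi := ⟨hθ0, by linarith⟩
      rw [indicator_of_mem hθp]
      have h := a91_central b c x θ (q θ) hx00.le hc0.le hθ0 (h1 θ hθ0.le hc1)
        (h2 θ hθ0.le (by linarith))
      refine le_trans ?_ h
      have hz : 0 ≤ 512 * (n : ℝ) ^ 4 * g6 θ + e1 * k1 θ + e2 * k2 θ := by positivity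
      have hz2 := mul_nonneg hx00.le hz
      simp only [hA, hg1, hg6, hg4] at hz2 ⊢
      nlinarith
    · push Not at hc1
      have hsq : θ ^ 2 ≤ 256 * (n : ℝ) ^ 4 * θ ^ 6 := by
        have : (1 : ℝ) ≤ (4 * n * θ) ^ 4 := one_le_pow₀ hc1.le
        calc θ ^ 2 = θ ^ 2 * 1 := by ring
          _ ≤ θ ^ 2 * (4 * n * θ) ^ 4 := by gcongr
          _ = _ := by ring
      have hGle : Real.exp (-b * θ ^ 2) * θ ^ 2 ≤ 256 * (n : ℝ) ^ 4 * g6 θ := by
        calc Real.exp (-b * θ ^ 2) * θ ^ 2 ≤ Real.exp (-b * θ ^ 2) * (256 * (n : ℝ) ^ 4 * θ ^ 6) := by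
              gcongr
          _ = _ := by simp only [hg6]; ring
      have hg1le : g1 θ ≤ x * (256 * (n : ℝ) ^ 4 * g6 θ) := by
        have h6 : |Real.sin (x * θ)| ≤ x * θ :=
          Real.abs_sin_le_abs.trans (abs_of_nonneg (mul_nonneg hx00.le hθ0.le)).le
        calc g1 θ ≤ θ * (x * θ) * Real.exp (-b * θ ^ 2) := by
              simp only [hg1]
              gcongr
              exact (le_abs_self _).trans h6
          _ = x * (Real.exp (-b * θ ^ 2) * θ ^ 2) := by ring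
          _ ≤ _ := by gcongr
      have hmain : ∀ y : ℝ, 0 ≤ y → y ≤ 256 * (n : ℝ) ^ 4 * g6 θ + e1 * k1 θ + e2 * k2 θ →
          ∀ z : ℝ, |z| ≤ x * y →
          g1 θ - x * (A * g6 θ + 1 / 16 * g4 θ + e1 * k1 θ + e2 * k2 θ) ≤ z := by
        intro y hy0 hy z hz
        have hz1 := (abs_le.1 hz).1
        have hz2 : x * y ≤ x * (256 * (n : ℝ) ^ 4 * g6 θ + e1 * k1 θ + e2 * k2 θ) := by gcongr
        have hz3 : 0 ≤ x * (c * g6 θ + 1 / 16 * g4 θ) := by positivity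
        simp only [hA]
        nlinarith
      by_cases hc2 : θ ≤ Real.pi
      · have hθp : θ ∈ Ioc 0 Real.pi := ⟨hθ0, hc2⟩
        rw [indicator_of_mem hθp]
        have hFle : ∀ y : ℝ, |q θ| ≤ y → |F θ| ≤ x * (y * θ ^ 2) := by
          intro y hy
          have hs := a91_sines x θ hx00.le hθ0.le
          have hy0 : 0 ≤ y := (abs_nonneg _).trans hy
          simp only [hF]
          rw [abs_mul]
          calc |q θ| * |2 * Real.sin (x * θ) * Real.sin (θ / 2)| ≤ y * (x * θ ^ 2) := by gcongr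
            _ = _ := by ring
        have hk2v : k2 θ = θ ^ 2 := by
          simp only [hk2]
          exact indicator_of_mem hθp _
        by_cases hc3 : 4 * n * θ ≤ Real.pi
        · have hq1 := h2 θ hθ0.le hc3
          have hG : Real.exp (-(b * θ ^ 2)) = Real.exp (-b * θ ^ 2) := by ring_nf
          rw [hG] at hq1
          refine hmain (Real.exp (-b * θ ^ 2) * θ ^ 2) (by positivity) ?_ _ (hFle _ hq1)
          have : 0 ≤ e1 * k1 θ + e2 * k2 θ := by positivity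
          linarith
        · push Not at hc3
          by_cases hc4 : (n : ℝ) * θ ≤ 4
          · have hq1 : |q θ| ≤ e1 := by
              by_cases hc5 : (n : ℝ) * θ ≤ 2
              · refine (h3 θ (by linarith) hc5).trans (Real.exp_le_exp.2 ?_)
                linarith
              · push Not at hc5
                exact h4 θ hc5.le hc4
            have hk1v : k1 θ = θ ^ 2 := by
              have hmem : θ ∈ Ioc 0 (4 / (n : ℝ)) := by
                refine ⟨hθ0, ?_⟩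
                rw [le_div_iff₀ hn0]
                linarith
              simp only [hk1]
              exact indicator_of_mem hmem _
            refine hmain (e1 * θ ^ 2) (by positivity) ?_ _ (hFle _ hq1)
            rw [hk1v]
            have : 0 ≤ 256 * (n : ℝ) ^ 4 * g6 θ + e2 * k2 θ := by positivity
            linarith
          · push Not at hc4
            have hq1 := h5 θ hc4.le hc2
            refine hmain (e2 * θ ^ 2) (by positivity) ?_ _ (hFle _ hq1)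
            rw [hk2v]
            have : 0 ≤ 256 * (n : ℝ) ^ 4 * g6 θ + e1 * k1 θ := by positivity
            linarith
      · rw [indicator_of_notMem (fun h => hc2 h.2)]
        exact hmain 0 le_rfl (by positivity) 0 (by simp)
  -- integrability
  have hi6 : IntegrableOn g6 (Ioi 0) := g91_intOn hb0 6
  have hi4 : IntegrableOn g4 (Ioi 0) := g91_intOn hb0 4
  have hi1 : IntegrableOn g1 (Ioi 0) := by
    have h := g91_intOn hb0 1
    refine h.mono' (by simp only [hg1]; fun_prop) ?_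
    refine (ae_restrict_iff' measurableSet_Ioi).2 (Eventually.of_forall fun θ hθ => ?_)
    have hθ0 : 0 < θ := hθ
    simp only [hg1, pow_one, norm_mul, Real.norm_eq_abs, abs_of_pos hθ0, abs_of_pos (Real.exp_pos _)]
    have := Real.abs_sin_le_one (x * θ)
    calc θ * |Real.sin (x * θ)| * Real.exp (-b * θ ^ 2) ≤ θ * 1 * Real.exp (-b * θ ^ 2) := by gcongr
      _ = _ := by ring
  obtain ⟨hik1, hk1v⟩ := a91_sq_int (4 / (n : ℝ)) (by positivity)
  obtain ⟨hik2, hk2v⟩ := a91_sq_int Real.pi Real.pi_pos.le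
  have hiA : IntegrableOn (fun θ => A * g6 θ) (Ioi 0) := hi6.const_mul A
  have hiB : IntegrableOn (fun θ => 1 / 16 * g4 θ) (Ioi 0) := hi4.const_mul (1 / 16)
  have hiC : IntegrableOn (fun θ => e1 * k1 θ) (Ioi 0) := hik1.const_mul e1
  have hiD : IntegrableOn (fun θ => e2 * k2 θ) (Ioi 0) := hik2.const_mul e2
  have hiAB : IntegrableOn (fun θ => A * g6 θ + 1 / 16 * g4 θ) (Ioi 0) := hiA.add hiB
  have hiABC : IntegrableOn (fun θ => A * g6 θ + 1 / 16 * g4 θ + e1 * k1 θ) (Ioi 0) :=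
    hiAB.add hiC
  have hiE : IntegrableOn (fun θ => A * g6 θ + 1 / 16 * g4 θ + e1 * k1 θ + e2 * k2 θ) (Ioi 0) :=
    hiABC.add hiD
  have hxE : IntegrableOn (fun θ => x * (A * g6 θ + 1 / 16 * g4 θ + e1 * k1 θ + e2 * k2 θ))
      (Ioi 0) := hiE.const_mul x
  have hiL : IntegrableOn (fun θ => g1 θ -
      x * (A * g6 θ + 1 / 16 * g4 θ + e1 * k1 θ + e2 * k2 θ)) (Ioi 0) := hi1.sub hxE
  have hiF : IntegrableOn ((Ioc 0 Real.pi).indicator F) (Ioi 0) :=
    (hFc.integrableOn_Ioc.integrable_indicator measurableSet_Ioc).integrableOn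
  have hint := setIntegral_mono_on hiL hiF measurableSet_Ioi hlow
  have hIF : ∫ θ in Ioi (0 : ℝ), (Ioc 0 Real.pi).indicator F θ = ∫ θ in (0 : ℝ)..Real.pi, F θ := by
    rw [setIntegral_indicator measurableSet_Ioc, intervalIntegral.integral_of_le Real.pi_pos.le]
    congr 2
    ext θ
    simp only [mem_inter_iff, mem_Ioi, mem_Ioc]
    tauto
  rw [hIF] at hint
  refine lt_of_lt_of_le ?_ hint
  have hsplit : ∫ θ in Ioi (0 : ℝ), (g1 θ - x * (A * g6 θ + 1 / 16 * g4 θ + e1 * k1 θ + e2 * k2 θ)) =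
      x / (4 * b) * (Real.sqrt Real.pi / Real.sqrt b * Real.exp (-x ^ 2 / (4 * b))) -
      x * (A * (15 * Real.sqrt Real.pi / (16 * b ^ 3 * Real.sqrt b)) +
        1 / 16 * (3 * Real.sqrt Real.pi / (8 * b ^ 2 * Real.sqrt b)) +
        e1 * ((4 / (n : ℝ)) ^ 3 / 3) + e2 * (Real.pi ^ 3 / 3)) := by
    have s1 : ∫ θ in Ioi (0 : ℝ), g1 θ =
      x / (4 * b) * (Real.sqrt Real.pi / Real.sqrt b * Real.exp (-x ^ 2 / (4 * b))) := g91_sin hb0 x
    have s6 : ∫ θ in Ioi (0 : ℝ), g6 θ = 15 * Real.sqrt Real.pi / (16 * b ^ 3 * Real.sqrt b) :=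
      g91_six hb0
    have s4 : ∫ θ in Ioi (0 : ℝ), g4 θ = 3 * Real.sqrt Real.pi / (8 * b ^ 2 * Real.sqrt b) :=
      g91_four hb0
    have t1 : ∫ θ in Ioi (0 : ℝ), k1 θ = (4 / (n : ℝ)) ^ 3 / 3 := hk1v
    have t2 : ∫ θ in Ioi (0 : ℝ), k2 θ = Real.pi ^ 3 / 3 := hk2v
    rw [integral_sub hi1 hxE, integral_const_mul, integral_add hiABC hiD, integral_add hiAB hiC,
      integral_add hiA hiB, integral_const_mul, integral_const_mul, integral_const_mul,
      integral_const_mul, s1, s6, s4, t1, t2]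
  rw [hsplit]
  have ht : x ^ 2 / (4 * b) ≤ 2.88 := by
    rw [div_le_iff₀ (by positivity)]
    have : S2 n / 12 = 2 * b := by rw [hb]; ring
    rw [this] at hx
    linarith
  have hfin := a91_num (n : ℝ) hn' b A (x ^ 2 / (4 * b)) hb' (by rw [hA, hc']) ht
  have hfin2 := mul_lt_mul_of_pos_left hfin hx00
  have e3 : x * (1 / (4 * b) * (Real.sqrt Real.pi / Real.sqrt b * Real.exp (-(x ^ 2 / (4 * b))))) =
      x / (4 * b) * (Real.sqrt Real.pi / Real.sqrt b * Real.exp (-x ^ 2 / (4 * b))) := by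
    rw [show -x ^ 2 / (4 * b) = -(x ^ 2 / (4 * b)) by ring]
    ring
  rw [e3, ← he1, ← he2] at hfin2
  linarith

end C048
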