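import Pool.Agent.helper70.KU.Defs
import Pool.Agent.helper91.KU.Gauss

/-!
# Module GL5: the checks for `n τ ≥ 2`
-/

namespace C048

open MeasureTheory Set Filter Topology intervalIntegral

theorem gl91_exp_lower (x : ℝ) (h0 : 0 ≤ x) (h1 : x ≤ 1) :
    1 - x + x ^ 2 / 2 - x ^ 3 / 6 + x ^ 4 / 24 - x ^ 5 / 120 - x ^ 6 / 600 ≤ Real.exp (-x) := by
  have h := Real.exp_bound (x := -x) (by rwa [abs_neg, abs_of_nonneg h0]) (n := 6) (by norm_num)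
  rw [abs_neg, abs_of_nonneg h0] at h
  have h2 := (abs_le.1 h).1
  simp only [Finset.sum_range_succ, Finset.sum_range_zero, Nat.factorial] at h2
  norm_num at h2
  have h3 : 0 ≤ x ^ 6 := by positivity
  nlinarith

/-- the tail of a Gaussian integral -/
theorem gl91_tail (c T J : ℝ) (hc : 0 < c) (hT : 0 ≤ T) (hcT : c * T ^ 2 ≤ 1) (K : ℝ)
    (hK : Real.pi / c ≤ K ^ 2) (hK0 : 0 ≤ K)
    (hJ : K / 2 - (T - c * T ^ 3 / 3 + c ^ 2 * T ^ 5 / 10 - c ^ 3 * T ^ 7 / 42 +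
      c ^ 4 * T ^ 9 / 216 - c ^ 5 * T ^ 11 / 1320 - c ^ 6 * T ^ 13 / 7800) ≤ J) :
    ∫ t in Ioi T, Real.exp (-c * t ^ 2) ≤ J := by
  have hint : IntegrableOn (fun t : ℝ => Real.exp (-c * t ^ 2)) (Ioi 0) := by
    have := g91_intOn hc 0
    simpa using this
  have hsplit : ∫ t in Ioi (0 : ℝ), Real.exp (-c * t ^ 2) =
      (∫ t in (0 : ℝ)..T, Real.exp (-c * t ^ 2)) + ∫ t in Ioi T, Real.exp (-c * t ^ 2) := by
    rw [integral_of_le hT, ← setIntegral_union]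
    · rw [Ioc_union_Ioi_eq_Ioi hT]
    · exact (Ioc_disjoint_Ioi le_rfl)
    · exact measurableSet_Ioi
    · exact hint.mono_set Ioc_subset_Ioi_self
    · exact hint.mono_set (Ioi_subset_Ioi hT)
  have hfull : ∫ t in Ioi (0 : ℝ), Real.exp (-c * t ^ 2) ≤ K / 2 := by
    rw [integral_gaussian_Ioi]
    have : Real.sqrt (Real.pi / c) ≤ K := by
      rw [Real.sqrt_le_left hK0]
      exact hK
    linarith
  have hpoly : T - c * T ^ 3 / 3 + c ^ 2 * T ^ 5 / 10 - c ^ 3 * T ^ 7 / 42 +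
      c ^ 4 * T ^ 9 / 216 - c ^ 5 * T ^ 11 / 1320 - c ^ 6 * T ^ 13 / 7800 ≤
      ∫ t in (0 : ℝ)..T, Real.exp (-c * t ^ 2) := by
    have hder : ∀ t ∈ uIcc 0 T, HasDerivAt (fun t : ℝ => t - c * t ^ 3 / 3 + c ^ 2 * t ^ 5 / 10 -
        c ^ 3 * t ^ 7 / 42 + c ^ 4 * t ^ 9 / 216 - c ^ 5 * t ^ 11 / 1320 - c ^ 6 * t ^ 13 / 7800)
        (1 - (c * t ^ 2) + (c * t ^ 2) ^ 2 / 2 - (c * t ^ 2) ^ 3 / 6 + (c * t ^ 2) ^ 4 / 24 -
          (c * t ^ 2) ^ 5 / 120 - (c * t ^ 2) ^ 6 / 600) t := by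
      intro t _
      have h1 := hasDerivAt_id t
      have h3 := ((hasDerivAt_pow 3 t).const_mul c).div_const 3
      have h5 := ((hasDerivAt_pow 5 t).const_mul (c ^ 2)).div_const 10
      have h7 := ((hasDerivAt_pow 7 t).const_mul (c ^ 3)).div_const 42
      have h9 := ((hasDerivAt_pow 9 t).const_mul (c ^ 4)).div_const 216
      have h11 := ((hasDerivAt_pow 11 t).const_mul (c ^ 5)).div_const 1320
      have h13 := ((hasDerivAt_pow 13 t).const_mul (c ^ 6)).div_const 7800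
      refine ((((((h1.sub h3).add h5).sub h7).add h9).sub h11).sub h13).congr_deriv ?_
      norm_num
      ring
    have hcont : Continuous (fun t : ℝ => 1 - (c * t ^ 2) + (c * t ^ 2) ^ 2 / 2 -
        (c * t ^ 2) ^ 3 / 6 + (c * t ^ 2) ^ 4 / 24 - (c * t ^ 2) ^ 5 / 120 -
        (c * t ^ 2) ^ 6 / 600) := by fun_prop
    have hftc := integral_eq_sub_of_hasDerivAt hder (hcont.intervalIntegrable _ _)
    have hmono : ∫ t in (0 : ℝ)..T, (1 - (c * t ^ 2) + (c * t ^ 2) ^ 2 / 2 -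
        (c * t ^ 2) ^ 3 / 6 + (c * t ^ 2) ^ 4 / 24 - (c * t ^ 2) ^ 5 / 120 -
        (c * t ^ 2) ^ 6 / 600) ≤ ∫ t in (0 : ℝ)..T, Real.exp (-c * t ^ 2) := by
      refine integral_mono_on hT (hcont.intervalIntegrable _ _)
        ((by fun_prop : Continuous fun t : ℝ => Real.exp (-c * t ^ 2)).intervalIntegrable _ _) ?_
      intro t ht
      have h1 : c * t ^ 2 ≤ 1 := by
        refine le_trans ?_ hcT
        have := ht.2
        have := ht.1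
        gcongr
      have h2 := gl91_exp_lower (c * t ^ 2) (by positivity) h1
      rwa [← neg_mul] at h2
    rw [hftc] at hmono
    refine le_trans (le_of_eq ?_) hmono
    norm_num
  linarith

theorem gl91_tail_b : ∫ t in Ioi (0.85 : ℝ), Real.exp (-1.069 * t ^ 2) ≤ 0.1837 := by
  refine gl91_tail 1.069 0.85 0.1837 (by norm_num) (by norm_num) (by norm_num) 1.7144 ?_
    (by norm_num) (by norm_num)
  rw [div_le_iff₀ (by norm_num)]
  have := Real.pi_lt_d6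
  norm_num
  linarith

theorem gl91_tail_a : ∫ t in Ioi (0.8 : ℝ), Real.exp (-1.018 * t ^ 2) ≤ 0.2231 := by
  refine gl91_tail 1.018 0.8 0.2231 (by norm_num) (by norm_num) (by norm_num) 1.7568 ?_
    (by norm_num) (by norm_num)
  rw [div_le_iff₀ (by norm_num)]
  have := Real.pi_lt_d6
  norm_num
  linarith

/-- `y^k e^{-ay}` is decreasing for `y ≥ y0` if `k ≤ a y0`. -/
theorem gl91_decay (y y0 a : ℝ) (k : ℕ) (hy0 : 0 < y0) (hy : y0 ≤ y) (hk : (k : ℝ) ≤ a * y0) :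
    y ^ k * Real.exp (-(a * y)) ≤ y0 ^ k * Real.exp (-(a * y0)) := by
  have h1 : y / y0 ≤ Real.exp (y / y0 - 1) := by
    have := Real.add_one_le_exp (y / y0 - 1)
    linarith
  have hyy : 0 ≤ y / y0 := by
    have : 0 ≤ y := hy0.le.trans hy
    positivity
  have h2 : (y / y0) ^ k ≤ Real.exp (y / y0 - 1) ^ k := by gcongr
  have h3 : Real.exp (y / y0 - 1) ^ k ≤ Real.exp (a * y0 * (y / y0 - 1)) := by
    rw [← Real.exp_nat_mul, Real.exp_le_exp]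
    have : 0 ≤ y / y0 - 1 := by
      rw [sub_nonneg, one_le_div hy0]
      exact hy
    gcongr
  have h4 : y ^ k = y0 ^ k * (y / y0) ^ k := by
    rw [← mul_pow]
    congr 1
    field_simp
  calc y ^ k * Real.exp (-(a * y)) = y0 ^ k * (y / y0) ^ k * Real.exp (-(a * y)) := by rw [h4]
    _ ≤ y0 ^ k * Real.exp (a * y0 * (y / y0 - 1)) * Real.exp (-(a * y)) := by
      gcongr
      exact h2.trans h3
    _ = y0 ^ k * Real.exp (-(a * y0)) := by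
      rw [mul_assoc, ← Real.exp_add]
      congr 2
      field_simp
      ring

/-- the bounds `e^{-a/τ} ≤ c τ^{k/2}` -/
theorem gl91_E (τ y0 a c : ℝ) (k : ℕ) (hτ : 0 < τ) (hy0 : 0 < y0) (hτ1 : τ * y0 ≤ 1)
    (hk : (k : ℝ) ≤ 2 * a * y0) (hc : 0 ≤ c)
    (hnum : y0 ^ k * Real.exp (-(2 * a * y0)) ≤ c ^ 2) :
    Real.exp (-(a / τ)) ≤ c * Real.sqrt τ ^ k := by
  have hy : y0 ≤ 1 / τ := by
    rw [le_div_iff₀ hτ]
    linarith
  have h := (gl91_decay (1 / τ) y0 (2 * a) k hy0 hy hk).trans hnum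
  have hs : Real.sqrt τ ^ 2 = τ := Real.sq_sqrt hτ.le
  refine le_of_sq_le_sq ?_ (by positivity)
  rw [← Real.exp_nat_mul, mul_pow, ← pow_mul, mul_comm k 2, pow_mul, hs]
  have e1 : Real.exp (((2 : ℕ) : ℝ) * -(a / τ)) = Real.exp (-(2 * a * (1 / τ))) := by
    congr 1
    push_cast
    ring
  rw [e1]
  have e2 : (1 / τ) ^ k * Real.exp (-(2 * a * (1 / τ))) * τ ^ k =
      Real.exp (-(2 * a * (1 / τ))) := by
    rw [mul_right_comm, ← mul_pow, one_div_mul_cancel hτ.ne', one_pow, one_mul]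
  rw [← e2]
  gcongr

/-- upper bounds of `exp (-x)` -/
theorem gl91_exp_le (x q : ℝ) (n : ℕ) (hx : 0 ≤ x) (hq : 0 ≤ q)
    (h : 1 ≤ q * ∑ i ∈ Finset.range n, x ^ i / i.factorial) : Real.exp (-x) ≤ q := by
  have h1 := Real.sum_le_exp_of_nonneg hx n
  rw [Real.exp_neg, inv_le_iff_one_le_mul₀ (Real.exp_pos x)]
  exact h.trans (mul_le_mul_of_nonneg_left h1 hq)

/-- constant bounds on an interval -/
theorem gl91_const (g : ℝ → ℝ) (hgc : Continuous g) (a b e : ℝ) (ha : 0 ≤ a) (hab : a ≤ b)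
    (he : ∀ θ, a ≤ θ → θ ≤ b → g θ ≤ e) :
    (∫ θ in a..b, θ * g θ) ≤ e * ((b ^ 2 - a ^ 2) / 2) ∧ (∫ θ in a..b, g θ) ≤ e * (b - a) := by
  constructor
  · have h1 : ∫ θ in a..b, θ * g θ ≤ ∫ θ in a..b, θ * e := by
      refine integral_mono_on hab ((by fun_prop : Continuous fun θ => θ * g θ).intervalIntegrable _ _)
        ((by fun_prop : Continuous fun θ : ℝ => θ * e).intervalIntegrable _ _) ?_
      intro θ hθ
      have h2 : 0 ≤ θ := ha.trans hθ.1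
      exact mul_le_mul_of_nonneg_left (he θ hθ.1 hθ.2) h2
    rw [intervalIntegral.integral_mul_const, integral_id] at h1
    linarith
  · have h1 : ∫ θ in a..b, g θ ≤ ∫ _θ in a..b, e := by
      refine integral_mono_on hab (hgc.intervalIntegrable _ _)
        (continuous_const.intervalIntegrable _ _) ?_
      intro θ hθ
      exact he θ hθ.1 hθ.2
    rw [intervalIntegral.integral_const, smul_eq_mul] at h1
    linarith

theorem gl91_core (g : ℝ → ℝ) (hgc : Continuous g) (τ c T J e3 e4 e5 e6 : ℝ)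
    (hτ : 0 < τ) (h5π : 5 * τ ≤ Real.pi) (hc : 0 < c) (hT : 0 ≤ T)
    (hTτ : T * Real.sqrt τ ≤ 0.39)
    (hJ : ∫ t in Ioi T, Real.exp (-c * t ^ 2) ≤ J)
    (h1 : ∀ θ, 0 ≤ θ → θ ≤ 0.39 * τ → g θ ≤ Real.exp (-(c * θ ^ 2 / τ ^ 3)))
    (h2 : ∀ θ, 0.39 * τ ≤ θ → θ ≤ 0.55 * τ → g θ ≤ e3)
    (h3 : ∀ θ, 0.55 * τ ≤ θ → θ ≤ 0.9 * τ → g θ ≤ e4)
    (h4 : ∀ θ, 0.9 * τ ≤ θ → θ ≤ 5 * τ → g θ ≤ e5)
    (h5 : ∀ θ, 5 * τ ≤ θ → θ ≤ Real.pi → g θ ≤ e6) (he6 : 0 ≤ e6) :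
    (∫ θ in (0:ℝ)..Real.pi, θ * g θ) ≤ τ ^ 3 / (2 * c) + τ ^ 2 * (0.0752 * e3 + 0.25375 * e4 +
      12.095 * e5) + e6 * (Real.pi ^ 2 / 2) ∧
    (∫ θ in (T * (τ * Real.sqrt τ))..Real.pi, g θ) ≤ τ * Real.sqrt τ * J +
      τ * (0.16 * e3 + 0.35 * e4 + 4.1 * e5) + e6 * Real.pi := by
  have hs0 : 0 < Real.sqrt τ := Real.sqrt_pos.2 hτ
  have hs : Real.sqrt τ ^ 2 = τ := Real.sq_sqrt hτ.le
  set s := τ * Real.sqrt τ with hsd
  have hs3 : s ^ 2 = τ ^ 3 := by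
    rw [hsd, mul_pow, hs]
    ring
  have hspos : 0 < s := by positivity
  have hTs : T * s ≤ 0.39 * τ := by
    calc T * s = τ * (T * Real.sqrt τ) := by rw [hsd]; ring
      _ ≤ τ * 0.39 := by gcongr
      _ = _ := by ring
  have hTs0 : 0 ≤ T * s := by positivity
  obtain ⟨c2a, c2b⟩ := gl91_const g hgc (0.39 * τ) (0.55 * τ) e3 (by positivity)
    (by linarith) h2
  obtain ⟨c3a, c3b⟩ := gl91_const g hgc (0.55 * τ) (0.9 * τ) e4 (by positivity)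
    (by linarith) h3
  obtain ⟨c4a, c4b⟩ := gl91_const g hgc (0.9 * τ) (5 * τ) e5 (by positivity) (by linarith) h4
  obtain ⟨c5a, c5b⟩ := gl91_const g hgc (5 * τ) Real.pi e6 (by positivity) h5π h5
  have hgi : ∀ a b : ℝ, IntervalIntegrable g volume a b := fun a b => hgc.intervalIntegrable a b
  have hgi' : ∀ a b : ℝ, IntervalIntegrable (fun θ => θ * g θ) volume a b := fun a b =>
    (by fun_prop : Continuous fun θ => θ * g θ).intervalIntegrable a b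
  have hEc : Continuous (fun θ : ℝ => Real.exp (-(c * θ ^ 2 / τ ^ 3))) := by fun_prop
  constructor
  · -- first moment
    have hz : ∫ θ in (0:ℝ)..(0.39 * τ), θ * g θ ≤ τ ^ 3 / (2 * c) := by
      have m1 : ∫ θ in (0:ℝ)..(0.39 * τ), θ * g θ ≤
          ∫ θ in (0:ℝ)..(0.39 * τ), θ * Real.exp (-(c * θ ^ 2 / τ ^ 3)) := by
        refine integral_mono_on (by positivity) (hgi' _ _)
          ((by fun_prop : Continuous fun θ : ℝ =>
            θ * Real.exp (-(c * θ ^ 2 / τ ^ 3))).intervalIntegrable _ _) ?_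
        intro θ hθ
        exact mul_le_mul_of_nonneg_left (h1 θ hθ.1 hθ.2) hθ.1
      have hder : ∀ θ ∈ uIcc 0 (0.39 * τ), HasDerivAt
          (fun θ : ℝ => -(τ ^ 3 / (2 * c)) * Real.exp (-(c * θ ^ 2 / τ ^ 3)))
          (θ * Real.exp (-(c * θ ^ 2 / τ ^ 3))) θ := by
        intro θ _
        have d1 := ((((hasDerivAt_pow 2 θ).const_mul c).div_const (τ ^ 3)).neg.exp).const_mul
          (-(τ ^ 3 / (2 * c)))
        refine d1.congr_deriv ?_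
        have := hτ.ne'
        have := hc.ne'
        field_simp
        norm_num
        ring
      have hftc := integral_eq_sub_of_hasDerivAt hder
        ((by fun_prop : Continuous fun θ : ℝ =>
            θ * Real.exp (-(c * θ ^ 2 / τ ^ 3))).intervalIntegrable _ _)
      rw [hftc] at m1
      refine m1.trans ?_
      have e0 : Real.exp (-(c * (0:ℝ) ^ 2 / τ ^ 3)) = 1 := by simp
      rw [e0]
      have e1 : 0 ≤ τ ^ 3 / (2 * c) * Real.exp (-(c * (0.39 * τ) ^ 2 / τ ^ 3)) := by positivity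
      linarith
    have hsum : ∫ θ in (0:ℝ)..Real.pi, θ * g θ = (∫ θ in (0:ℝ)..(0.39 * τ), θ * g θ) +
        (∫ θ in (0.39 * τ)..(0.55 * τ), θ * g θ) + (∫ θ in (0.55 * τ)..(0.9 * τ), θ * g θ) +
        (∫ θ in (0.9 * τ)..(5 * τ), θ * g θ) + ∫ θ in (5 * τ)..Real.pi, θ * g θ := by
      rw [integral_add_adjacent_intervals (hgi' _ _) (hgi' _ _),
        integral_add_adjacent_intervals (hgi' _ _) (hgi' _ _),
        integral_add_adjacent_intervals (hgi' _ _) (hgi' _ _),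
        integral_add_adjacent_intervals (hgi' _ _) (hgi' _ _)]
    rw [hsum]
    have f6 : e6 * ((Real.pi ^ 2 - (5 * τ) ^ 2) / 2) ≤ e6 * (Real.pi ^ 2 / 2) := by
      have : 0 ≤ (5 * τ) ^ 2 := by positivity
      gcongr
      linarith
    have f3 : e3 * (((0.55 * τ) ^ 2 - (0.39 * τ) ^ 2) / 2) = τ ^ 2 * (0.0752 * e3) := by ring
    have f4 : e4 * (((0.9 * τ) ^ 2 - (0.55 * τ) ^ 2) / 2) = τ ^ 2 * (0.25375 * e4) := by ring
    have f5 : e5 * (((5 * τ) ^ 2 - (0.9 * τ) ^ 2) / 2) = τ ^ 2 * (12.095 * e5) := by ring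
    rw [f3] at c2a
    rw [f4] at c3a
    rw [f5] at c4a
    linarith
  · have hz : ∫ θ in (T * s)..(0.39 * τ), g θ ≤ s * J := by
      have m1 : ∫ θ in (T * s)..(0.39 * τ), g θ ≤
          ∫ θ in (T * s)..(0.39 * τ), Real.exp (-c * (θ / s) ^ 2) := by
        refine integral_mono_on hTs (hgi _ _)
          ((by fun_prop : Continuous fun θ : ℝ =>
            Real.exp (-c * (θ / s) ^ 2)).intervalIntegrable _ _) ?_
        intro θ hθ
        refine (h1 θ (hTs0.trans hθ.1) hθ.2).trans (le_of_eq ?_)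
        congr 1
        rw [div_pow, hs3]
        ring
      have m2 := intervalIntegral.integral_comp_div (fun t : ℝ => Real.exp (-c * t ^ 2))
        (a := T * s) (b := 0.39 * τ) hspos.ne'
      rw [m2, smul_eq_mul] at m1
      refine m1.trans (mul_le_mul_of_nonneg_left ?_ hspos.le)
      refine le_trans ?_ hJ
      have e1 : T * s / s = T := by field_simp
      have e2 : T ≤ 0.39 * τ / s := by
        rw [le_div_iff₀ hspos]
        exact hTs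
      rw [e1, integral_of_le e2]
      have hint : IntegrableOn (fun t : ℝ => Real.exp (-c * t ^ 2)) (Ioi T) := by
        have := g91_intOn hc 0
        have h0 : IntegrableOn (fun t : ℝ => Real.exp (-c * t ^ 2)) (Ioi 0) := by simpa using this
        exact h0.mono_set (Ioi_subset_Ioi hT)
      exact setIntegral_mono_set hint (Eventually.of_forall fun t => (Real.exp_pos _).le)
        (LE.le.eventuallyLE Ioc_subset_Ioi_self)
    have hsum : ∫ θ in (T * s)..Real.pi, g θ = (∫ θ in (T * s)..(0.39 * τ), g θ) +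
        (∫ θ in (0.39 * τ)..(0.55 * τ), g θ) + (∫ θ in (0.55 * τ)..(0.9 * τ), g θ) +
        (∫ θ in (0.9 * τ)..(5 * τ), g θ) + ∫ θ in (5 * τ)..Real.pi, g θ := by
      rw [integral_add_adjacent_intervals (hgi _ _) (hgi _ _),
        integral_add_adjacent_intervals (hgi _ _) (hgi _ _),
        integral_add_adjacent_intervals (hgi _ _) (hgi _ _),
        integral_add_adjacent_intervals (hgi _ _) (hgi _ _)]
    rw [hsum]
    have f6 : e6 * (Real.pi - 5 * τ) ≤ e6 * Real.pi := by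
      gcongr
      linarith
    have f3 : e3 * (0.55 * τ - 0.39 * τ) = τ * (0.16 * e3) := by ring
    have f4 : e4 * (0.9 * τ - 0.55 * τ) = τ * (0.35 * e4) := by ring
    have f5 : e5 * (5 * τ - 0.9 * τ) = τ * (4.1 * e5) := by ring
    rw [f3] at c2b
    rw [f4] at c3b
    rw [f5] at c4b
    linarith

theorem gl91_exp_nat (x : ℝ) (k : ℕ) (h : (k : ℝ) ≤ x) :
    Real.exp (-x) ≤ (1 / 2.7182818283) ^ k := by
  have h1 := Real.exp_one_gt_d9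
  calc Real.exp (-x) ≤ Real.exp (-(k : ℝ)) := Real.exp_le_exp.2 (by linarith)
    _ ≤ _ := by
      rw [Real.exp_neg, show (k : ℝ) = (k : ℝ) * 1 by ring, Real.exp_nat_mul, one_div, inv_pow]
      gcongr

/-- the final comparison -/
theorem gl91_final (g : ℝ → ℝ) (τ V u c T J Vc c3 c4 c5 c6 e3 e4 e5 e6 u0 : ℝ) (hu : u = Real.sqrt τ)
    (hτ : 0 < τ) (hτ1 : τ ≤ 0.0613) (hc : 0 < c) (hT : 0 ≤ T) (hV0 : 0 ≤ V) (hV : V ≤ Vc / τ ^ 3)
    (hu0 : u ≤ u0) (he6 : 0 ≤ e6)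
    (h3 : e3 ≤ c3 * u ^ 1) (h4 : e4 ≤ c4 * u ^ 1) (h5 : e5 ≤ c5 * u ^ 1) (h6 : e6 ≤ c6 * u ^ 5)
    (hA : (∫ θ in (0:ℝ)..Real.pi, θ * g θ) ≤ τ ^ 3 / (2 * c) + τ ^ 2 * (0.0752 * e3 +
      0.25375 * e4 + 12.095 * e5) + e6 * (Real.pi ^ 2 / 2))
    (hB : (∫ θ in (T * (τ * Real.sqrt τ))..Real.pi, g θ) ≤ τ * Real.sqrt τ * J +
      τ * (0.16 * e3 + 0.35 * e4 + 4.1 * e5) + e6 * Real.pi)
    (hnum : u0 / (2 * c) + J + (0.2352 * c3 + 0.60375 * c4 + 16.195 * c5) + 5.2 * c6 <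
      T - Vc * T ^ 3 / 6) :
    ∫ θ in (0:ℝ)..Real.pi, θ * g θ
      < τ * (T * (τ * Real.sqrt τ) - V * (T * (τ * Real.sqrt τ)) ^ 3 / 6
          - ∫ θ in (T * (τ * Real.sqrt τ))..Real.pi, g θ) := by
  have hu1 : 0 < u := by rw [hu]; exact Real.sqrt_pos.2 hτ
  have hu2 : u ^ 2 = τ := by rw [hu]; exact Real.sq_sqrt hτ.le
  have hs : τ * Real.sqrt τ = u ^ 3 := by rw [← hu, ← hu2]; ring
  rw [hs] at hB ⊢
  set A := ∫ θ in (0:ℝ)..Real.pi, θ * g θ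
  set B := ∫ θ in (T * u ^ 3)..Real.pi, g θ
  have hW : 0 < u ^ 5 := by positivity
  have hπ : Real.pi ^ 2 / 2 + τ * Real.pi ≤ 5.2 := by
    have := Real.pi_lt_d4
    have := Real.pi_pos
    have h7 : Real.pi ^ 2 ≤ 3.1416 ^ 2 := by gcongr
    have h8 : τ * Real.pi ≤ 0.0613 * 3.1416 := by gcongr
    norm_num at h7 h8 ⊢
    linarith
  have hVs : V * (T * u ^ 3) ^ 3 / 6 ≤ Vc * T ^ 3 / 6 * u ^ 3 := by
    have h7 : V * τ ^ 3 ≤ Vc := by
      rwa [le_div_iff₀ (by positivity)] at hV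
    have h8 : V * (T * u ^ 3) ^ 3 / 6 = V * τ ^ 3 * (T ^ 3 / 6 * u ^ 3) := by
      rw [← hu2]
      ring
    rw [h8]
    calc V * τ ^ 3 * (T ^ 3 / 6 * u ^ 3) ≤ Vc * (T ^ 3 / 6 * u ^ 3) := by gcongr
      _ = _ := by ring
  -- the sum of all the terms
  have k1 : τ ^ 3 / (2 * c) ≤ u0 / (2 * c) * u ^ 5 := by
    rw [← hu2]
    have : (u ^ 2) ^ 3 / (2 * c) = u / (2 * c) * u ^ 5 := by ring
    rw [this]
    gcongr
  have k2 : τ ^ 2 * e3 ≤ c3 * u ^ 5 := by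
    rw [← hu2]
    calc (u ^ 2) ^ 2 * e3 ≤ (u ^ 2) ^ 2 * (c3 * u ^ 1) := by gcongr
      _ = _ := by ring
  have k3 : τ ^ 2 * e4 ≤ c4 * u ^ 5 := by
    rw [← hu2]
    calc (u ^ 2) ^ 2 * e4 ≤ (u ^ 2) ^ 2 * (c4 * u ^ 1) := by gcongr
      _ = _ := by ring
  have k4 : τ ^ 2 * e5 ≤ c5 * u ^ 5 := by
    rw [← hu2]
    calc (u ^ 2) ^ 2 * e5 ≤ (u ^ 2) ^ 2 * (c5 * u ^ 1) := by gcongr
      _ = _ := by ring
  have k5 : e6 * (Real.pi ^ 2 / 2 + τ * Real.pi) ≤ 5.2 * c6 * u ^ 5 := by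
    have h60 : 0 ≤ c6 * u ^ 5 := he6.trans h6
    calc e6 * (Real.pi ^ 2 / 2 + τ * Real.pi) ≤ c6 * u ^ 5 * 5.2 := by gcongr
      _ = _ := by ring
  have hB' : τ * B ≤ J * u ^ 5 + τ ^ 2 * (0.16 * e3 + 0.35 * e4 + 4.1 * e5) +
      τ * (e6 * Real.pi) := by
    calc τ * B ≤ τ * (u ^ 3 * J + τ * (0.16 * e3 + 0.35 * e4 + 4.1 * e5) + e6 * Real.pi) := by
          gcongr
      _ = u ^ 2 * (u ^ 3 * J) + τ ^ 2 * (0.16 * e3 + 0.35 * e4 + 4.1 * e5) +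
          τ * (e6 * Real.pi) := by rw [hu2]; ring
      _ = _ := by ring
  have hR : (T - Vc * T ^ 3 / 6) * u ^ 5 ≤ τ * (T * u ^ 3 - V * (T * u ^ 3) ^ 3 / 6) := by
    calc (T - Vc * T ^ 3 / 6) * u ^ 5 = u ^ 2 * (T * u ^ 3 - Vc * T ^ 3 / 6 * u ^ 3) := by ring
      _ = τ * (T * u ^ 3 - Vc * T ^ 3 / 6 * u ^ 3) := by rw [hu2]
      _ ≤ _ := by gcongr
  have hfin := mul_lt_mul_of_pos_right hnum hW
  have hexp : τ * (T * u ^ 3 - V * (T * u ^ 3) ^ 3 / 6 - B) =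
      τ * (T * u ^ 3 - V * (T * u ^ 3) ^ 3 / 6) - τ * B := by ring
  rw [hexp]
  nlinarith

/-- GL5b: check for `4 ≤ nτ`, `τ ≤ 0.0613` -/
theorem GL5b (g : ℝ → ℝ) (hgc : Continuous g) (hg0 : ∀ θ, 0 ≤ g θ) (V τ : ℝ) (hτ : 0 < τ)
    (hτ1 : τ ≤ 0.0613) (hV0 : 0 ≤ V) (hV : V ≤ 3.79 / τ ^ 3)
    (h1 : ∀ θ, 0 ≤ θ → θ ≤ 0.39 * τ → g θ ≤ Real.exp (-(1.069 * θ ^ 2 / τ ^ 3)))
    (h2 : ∀ θ, 0.39 * τ ≤ θ → θ ≤ 0.55 * τ → g θ ≤ Real.exp (-(0.1635 / τ)))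
    (h3 : ∀ θ, 0.55 * τ ≤ θ → θ ≤ 0.9 * τ → g θ ≤ Real.exp (-(0.2885 / τ)))
    (h4 : ∀ θ, 0.9 * τ ≤ θ → θ ≤ 5 * τ → g θ ≤ Real.exp (-(0.557 / τ)))
    (h5 : ∀ θ, 5 * τ ≤ θ → θ ≤ Real.pi → g θ ≤ Real.exp (-(0.949 / τ))) :
    ∫ θ in (0:ℝ)..Real.pi, θ * g θ
      < τ * (0.85 * (τ * Real.sqrt τ) - V * (0.85 * (τ * Real.sqrt τ)) ^ 3 / 6
          - ∫ θ in (0.85 * (τ * Real.sqrt τ))..Real.pi, g θ) := by
  have hu0 : Real.sqrt τ ≤ 0.2476 := by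
    rw [Real.sqrt_le_left (by norm_num)]
    exact hτ1.trans (by norm_num)
  have hp := Real.pi_gt_three
  have h1' : ∀ θ : ℝ, 0 ≤ θ → θ ≤ 0.39 * τ → g θ ≤ Real.exp (-(1.069 * θ ^ 2 / τ ^ 3)) := h1
  obtain ⟨hA, hB⟩ := gl91_core g hgc τ 1.069 0.85 0.1837 _ _ _ _ hτ (by linarith) (by norm_num)
    (by norm_num) (by linarith) gl91_tail_b h1' h2 h3 h4 h5 (Real.exp_pos _).le
  have hy : τ * 16.3 ≤ 1 := by linarith
  refine gl91_final g τ V (Real.sqrt τ) 1.069 0.85 0.1837 3.79 0.2815 0.0368 0.0006 0.00033 _ _ _ _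
    0.2476 rfl hτ hτ1 (by norm_num) (by norm_num) hV0 hV hu0 (Real.exp_pos _).le ?_ ?_ ?_ ?_ hA hB
    (by norm_num)
  · refine gl91_E τ 16.3 0.1635 0.2815 1 hτ (by norm_num) hy (by norm_num) (by norm_num) ?_
    have := gl91_exp_le (2 * 0.1635 * 16.3) 0.00486 24 (by norm_num) (by norm_num) (by
      simp only [Finset.sum_range_succ, Finset.sum_range_zero, Nat.factorial]
      norm_num)
    calc (16.3 : ℝ) ^ 1 * Real.exp (-(2 * 0.1635 * 16.3)) ≤ 16.3 ^ 1 * 0.00486 := by gcongr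
      _ ≤ _ := by norm_num
  · refine gl91_E τ 16.3 0.2885 0.0368 1 hτ (by norm_num) hy (by norm_num) (by norm_num) ?_
    have := gl91_exp_le (2 * 0.2885 * 16.3) 0.000083 32 (by norm_num) (by norm_num) (by
      simp only [Finset.sum_range_succ, Finset.sum_range_zero, Nat.factorial]
      norm_num)
    calc (16.3 : ℝ) ^ 1 * Real.exp (-(2 * 0.2885 * 16.3)) ≤ 16.3 ^ 1 * 0.000083 := by gcongr
      _ ≤ _ := by norm_num
  · refine gl91_E τ 16.3 0.557 0.0006 1 hτ (by norm_num) hy (by norm_num) (by norm_num) ?_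
    have := gl91_exp_nat (2 * 0.557 * 16.3) 18 (by norm_num)
    calc (16.3 : ℝ) ^ 1 * Real.exp (-(2 * 0.557 * 16.3)) ≤ 16.3 ^ 1 * (1 / 2.7182818283) ^ 18 := by
          gcongr
      _ ≤ _ := by norm_num
  · refine gl91_E τ 16.3 0.949 0.00033 5 hτ (by norm_num) hy (by norm_num) (by norm_num) ?_
    have := gl91_exp_nat (2 * 0.949 * 16.3) 30 (by norm_num)
    calc (16.3 : ℝ) ^ 5 * Real.exp (-(2 * 0.949 * 16.3)) ≤ 16.3 ^ 5 * (1 / 2.7182818283) ^ 30 := by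
          gcongr
      _ ≤ _ := by norm_num

/-- GL5a: check for `2 ≤ nτ ≤ 4` (so `τ ≤ 4/150`) -/
theorem GL5a (g : ℝ → ℝ) (hgc : Continuous g) (hg0 : ∀ θ, 0 ≤ g θ) (V τ : ℝ) (hτ : 0 < τ)
    (hτ1 : τ ≤ 4 / 150) (hV0 : 0 ≤ V) (hV : V ≤ 5.2 / τ ^ 3)
    (h1 : ∀ θ, 0 ≤ θ → θ ≤ 0.39 * τ → g θ ≤ Real.exp (-(1.018 * θ ^ 2 / τ ^ 3)))
    (h2 : ∀ θ, 0.39 * τ ≤ θ → θ ≤ 0.55 * τ → g θ ≤ Real.exp (-(0.122 / τ)))
    (h3 : ∀ θ, 0.55 * τ ≤ θ → θ ≤ 0.9 * τ → g θ ≤ Real.exp (-(0.247 / τ)))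
    (h4 : ∀ θ, 0.9 * τ ≤ θ → θ ≤ 5 * τ → g θ ≤ Real.exp (-(0.515 / τ)))
    (h5 : ∀ θ, 5 * τ ≤ θ → θ ≤ Real.pi → g θ ≤ Real.exp (-(0.9 / τ))) :
    ∫ θ in (0:ℝ)..Real.pi, θ * g θ
      < τ * (0.8 * (τ * Real.sqrt τ) - V * (0.8 * (τ * Real.sqrt τ)) ^ 3 / 6
          - ∫ θ in (0.8 * (τ * Real.sqrt τ))..Real.pi, g θ) := by
  have hu0 : Real.sqrt τ ≤ 0.1634 := by
    rw [Real.sqrt_le_left (by norm_num)]
    exact hτ1.trans (by norm_num)
  have hp := Real.pi_gt_three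
  have h1' : ∀ θ : ℝ, 0 ≤ θ → θ ≤ 0.39 * τ → g θ ≤ Real.exp (-(1.018 * θ ^ 2 / τ ^ 3)) := h1
  obtain ⟨hA, hB⟩ := gl91_core g hgc τ 1.018 0.8 0.2231 _ _ _ _ hτ (by linarith) (by norm_num)
    (by norm_num) (by linarith) gl91_tail_a h1' h2 h3 h4 h5 (Real.exp_pos _).le
  have hy : τ * 37.5 ≤ 1 := by linarith
  refine gl91_final g τ V (Real.sqrt τ) 1.018 0.8 0.2231 5.2 0.064 0.00076 0.000001 0.000001
    _ _ _ _ 0.1634 rfl hτ (hτ1.trans (by norm_num)) (by norm_num) (by norm_num) hV0 hV hu0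
    (Real.exp_pos _).le ?_ ?_ ?_ ?_ hA hB (by norm_num)
  · refine gl91_E τ 37.5 0.122 0.064 1 hτ (by norm_num) hy (by norm_num) (by norm_num) ?_
    have := gl91_exp_le (2 * 0.122 * 37.5) 0.000109 32 (by norm_num) (by norm_num) (by
      simp only [Finset.sum_range_succ, Finset.sum_range_zero, Nat.factorial]
      norm_num)
    calc (37.5 : ℝ) ^ 1 * Real.exp (-(2 * 0.122 * 37.5)) ≤ 37.5 ^ 1 * 0.000109 := by gcongr
      _ ≤ _ := by norm_num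
  · refine gl91_E τ 37.5 0.247 0.00076 1 hτ (by norm_num) hy (by norm_num) (by norm_num) ?_
    have := gl91_exp_nat (2 * 0.247 * 37.5) 18 (by norm_num)
    calc (37.5 : ℝ) ^ 1 * Real.exp (-(2 * 0.247 * 37.5)) ≤ 37.5 ^ 1 * (1 / 2.7182818283) ^ 18 := by
          gcongr
      _ ≤ _ := by norm_num
  · refine gl91_E τ 37.5 0.515 0.000001 1 hτ (by norm_num) hy (by norm_num) (by norm_num) ?_
    have := gl91_exp_nat (2 * 0.515 * 37.5) 38 (by norm_num)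
    calc (37.5 : ℝ) ^ 1 * Real.exp (-(2 * 0.515 * 37.5)) ≤ 37.5 ^ 1 * (1 / 2.7182818283) ^ 38 := by
          gcongr
      _ ≤ _ := by norm_num
  · refine gl91_E τ 37.5 0.9 0.000001 5 hτ (by norm_num) hy (by norm_num) (by norm_num) ?_
    have := gl91_exp_nat (2 * 0.9 * 37.5) 67 (by norm_num)
    calc (37.5 : ℝ) ^ 5 * Real.exp (-(2 * 0.9 * 37.5)) ≤ 37.5 ^ 5 * (1 / 2.7182818283) ^ 67 := by
          gcongr
      _ ≤ _ := by norm_num

end C048
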